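import Pool.Agent.helper51.QS.SpecB

set_option autoImplicit false

namespace Pool.Agent.QS

open Pool.Agent.PC MvPolynomial

universe u

theorem DV1_factor (D : Type u) [CommRing D] [IsLocalRing D] [IsNoetherianRing D] (w : D) (hw : ¬ IsUnit w)
    (hm : ∀ y : D, ¬ IsUnit y → w ∣ y) (x : D) (hx : x ≠ 0) : ∃ (k : ℕ) (y : D), IsUnit y ∧ x = w ^ k * y := by
  classical
  have hI : (Ideal.span {w} : Ideal D) ≠ ⊤ := by
    intro h
    exact hw (Ideal.span_singleton_eq_top.1 h)
  have hk := Ideal.iInf_pow_eq_bot_of_isLocalRing (Ideal.span {w} : Ideal D) hI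
  have hex : ∃ i : ℕ, x ∉ (Ideal.span {w} : Ideal D) ^ i := by
    by_contra hcon
    push Not at hcon
    have : x ∈ ⨅ i, (Ideal.span {w} : Ideal D) ^ i := by
      rw [Ideal.mem_iInf]
      exact hcon
    rw [hk] at this
    exact hx this
  have h1 := Nat.find_spec hex
  have h0 : Nat.find hex ≠ 0 := by
    intro h
    rw [h, pow_zero, Ideal.one_eq_top] at h1
    exact h1 trivial
  obtain ⟨k, hk'⟩ := Nat.exists_eq_succ_of_ne_zero h0
  have h2 : x ∈ (Ideal.span {w} : Ideal D) ^ k := by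
    by_contra hcon
    exact Nat.find_min hex (by omega : k < Nat.find hex) hcon
  rw [Ideal.span_singleton_pow, Ideal.mem_span_singleton] at h2
  obtain ⟨y, hy⟩ := h2
  refine ⟨k, y, ?_, hy⟩
  by_contra hyu
  obtain ⟨z, hz⟩ := hm y hyu
  apply h1
  rw [hk', Ideal.span_singleton_pow, Ideal.mem_span_singleton]
  exact ⟨z, by rw [hy, hz, pow_succ, mul_assoc]⟩

theorem DV1_D (D : Type u) [CommRing D] [IsLocalRing D] [IsNoetherianRing D] (hred : IsReduced D) (w : D)
    (hw : ¬ IsUnit w) (hm : ∀ y : D, ¬ IsUnit y → w ∣ y) (r s : D) (hs : s ≠ 0) (N : ℕ) (a : ℕ → D) (hN : 0 < N)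
    (h : r ^ N + ∑ i ∈ Finset.range N, a i * r ^ i * s ^ (N - i) = 0) : s ∣ r := by
  by_cases hr : r = 0
  · rw [hr]
    exact dvd_zero s
  obtain ⟨α, v, hv, hrv⟩ := DV1_factor D w hw hm r hr
  obtain ⟨β, z, hz, hsz⟩ := DV1_factor D w hw hm s hs
  rcases Nat.lt_or_ge α β with hab | hab
  · exfalso
    have hdvd : w ^ (α * N + 1) ∣ r ^ N := by
      have e : r ^ N = -∑ i ∈ Finset.range N, a i * r ^ i * s ^ (N - i) := by
        rw [← add_eq_zero_iff_eq_neg]
        exact h
      rw [e, dvd_neg]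
      refine Finset.dvd_sum fun i hi => ?_
      have hiN := Finset.mem_range.1 hi
      have e2 : a i * r ^ i * s ^ (N - i) = w ^ (α * i + β * (N - i)) * (a i * v ^ i * z ^ (N - i)) := by
        rw [hrv, hsz, mul_pow, mul_pow, ← pow_mul, ← pow_mul, pow_add]
        ring
      rw [e2]
      refine dvd_mul_of_dvd_left (pow_dvd_pow w ?_) _
      obtain ⟨m, hm'⟩ := Nat.exists_eq_add_of_lt hiN
      have h1 : N - i = m + 1 := by omega
      rw [h1, hm']
      have h2 : (α + 1) * (m + 1) ≤ β * (m + 1) := Nat.mul_le_mul_right _ hab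
      nlinarith
    have e3 : r ^ N = w ^ (α * N) * v ^ N := by
      rw [hrv, mul_pow, ← pow_mul]
    rw [e3] at hdvd
    have hvN : IsUnit (v ^ N) := hv.pow N
    rw [hvN.dvd_mul_right] at hdvd
    obtain ⟨c, hc⟩ := hdvd
    have hunit : IsUnit (1 - w * c) := by
      by_contra hcon
      have h1 : w * c ∈ nonunits D := fun hcu => hw (isUnit_of_mul_isUnit_left hcu)
      have h2 := IsLocalRing.nonunits_add h1 (show (1 - w * c) ∈ nonunits D from hcon)
      rw [add_sub_cancel] at h2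
      exact h2 isUnit_one
    have h0 : w ^ (α * N) * (1 - w * c) = 0 := by
      have : w ^ (α * N) * (1 - w * c) = w ^ (α * N) - w ^ (α * N + 1) * c := by
        rw [pow_succ]
        ring
      rw [this, ← hc, sub_self]
    have h00 : w ^ (α * N) = 0 := (hunit.mul_left_eq_zero).1 h0
    have hw0 : w = 0 := hred.eq_zero w ⟨α * N, h00⟩
    apply hs
    rw [hsz, hw0, zero_pow (by omega), zero_mul]
  · rw [hrv, hsz, hz.mul_right_dvd]
    exact dvd_mul_of_dvd_left (pow_dvd_pow w hab) v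

theorem DV1 : DV1_stmt.{u} := by
  intro L _ _ _ t w hmax hrad r s hns hint
  obtain ⟨N, a, hN, h⟩ := hint
  have ht : ¬ IsUnit t := by
    have : t ∈ IsLocalRing.maximalIdeal L := by
      rw [hmax]
      exact Ideal.subset_span (by simp)
    exact this
  have hnt : (Ideal.span {t} : Ideal L) ≠ ⊤ := fun h' => ht (Ideal.span_singleton_eq_top.1 h')
  haveI : Nontrivial (L ⧸ (Ideal.span {t} : Ideal L)) := Ideal.Quotient.nontrivial_iff.2 hnt
  haveI : IsLocalRing (L ⧸ (Ideal.span {t} : Ideal L)) :=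
    IsLocalRing.of_surjective' (Ideal.Quotient.mk (Ideal.span {t} : Ideal L)) Ideal.Quotient.mk_surjective
  set q := Ideal.Quotient.mk (Ideal.span {t} : Ideal L) with hq
  have hqt : q t = 0 := Ideal.Quotient.eq_zero_iff_mem.2 (Ideal.mem_span_singleton_self t)
  have hred : IsReduced (L ⧸ (Ideal.span {t} : Ideal L)) := (Ideal.isRadical_iff_quotient_reduced _).1 hrad
  have hw : ¬ IsUnit (q w) := by
    intro hu
    obtain ⟨c, hc⟩ := hu.exists_right_inv
    obtain ⟨c', rfl⟩ := Ideal.Quotient.mk_surjective c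
    have h1 : q (w * c' - 1) = 0 := by
      rw [map_sub, map_mul, map_one]
      exact sub_eq_zero.2 hc
    have h2 := Ideal.mem_span_singleton'.1 (Ideal.Quotient.eq_zero_iff_mem.1 h1)
    obtain ⟨d, hd⟩ := h2
    have h3 : (1 : L) ∈ IsLocalRing.maximalIdeal L := by
      rw [hmax, Ideal.mem_span_pair]
      exact ⟨-d, c', by linear_combination -hd⟩
    exact (Ideal.ne_top_iff_one _).1 (IsLocalRing.maximalIdeal.isMaximal L).ne_top h3
  have hm : ∀ y : L ⧸ (Ideal.span {t} : Ideal L), ¬ IsUnit y → q w ∣ y := by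
    intro y hy
    obtain ⟨y', rfl⟩ := Ideal.Quotient.mk_surjective y
    have h1 : y' ∈ IsLocalRing.maximalIdeal L := by
      rw [IsLocalRing.mem_maximalIdeal]
      intro hu
      exact hy (hu.map q)
    rw [hmax, Ideal.mem_span_pair] at h1
    obtain ⟨c, d, hcd⟩ := h1
    refine ⟨q d, ?_⟩
    show q y' = q w * q d
    rw [← hcd, map_add, map_mul, map_mul, hqt, mul_zero, zero_add, mul_comm]
  have hs : q s ≠ 0 := by
    intro h0
    have h1 : t ∣ s := Ideal.mem_span_singleton.1 (Ideal.Quotient.eq_zero_iff_mem.1 h0)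
    have h2 : t ∣ 1 := hns 1 (by rwa [mul_one])
    exact ht (isUnit_of_dvd_one h2)
  have hsum : (q r) ^ N + ∑ i ∈ Finset.range N, q (a i) * (q r) ^ i * (q s) ^ (N - i) = 0 := by
    have h1 : q (r ^ N + ∑ i ∈ Finset.range N, a i * r ^ i * s ^ (N - i)) = 0 :=
      Ideal.Quotient.eq_zero_iff_mem.2 (Ideal.mem_span_singleton.2 h)
    rw [map_add, map_sum, map_pow] at h1
    rw [← h1]
    congr 1
  obtain ⟨c, hc⟩ := DV1_D _ hred (q w) hw hm (q r) (q s) hs N (fun i => q (a i)) hN hsum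
  obtain ⟨c', rfl⟩ := Ideal.Quotient.mk_surjective c
  have h1 : q (r - s * c') = 0 := by
    rw [map_sub, map_mul]
    exact sub_eq_zero.2 hc
  obtain ⟨d, hd⟩ := Ideal.mem_span_singleton'.1 (Ideal.Quotient.eq_zero_iff_mem.1 h1)
  rw [Ideal.mem_span_pair]
  exact ⟨c', d, by linear_combination hd⟩

end Pool.Agent.QS
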