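import Pool.Agent.helper4.QS.Spec

open scoped BigOperators ComplexOrder ComplexConjugate Topology

namespace Pool.Agent.QS

open Pool.Agent.helper86.CM Filter

noncomputable section

theorem EXS_om {B : Lat 1 ≃ₗ[ℤ] Lat 1} {t : ℤ} (h : Cat B t) (m n : Lat 1) :
    omega m (B n) = t * omega m n + omega n (B m) := by
  have h1 : omega m (B n) = omega (B m) (B (B n)) := (h.om m (B n)).symm
  rw [h1, h.ch, sub_eq_add_neg, omega_add_right, omega_smul_right, omega_neg_right, h.om,
    omega_swap (B m) n, neg_neg]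

theorem EXS_hh {B : Lat 1 ≃ₗ[ℤ] Lat 1} {t : ℤ} (h : Cat B t) (x y : PP) :
    ∃ k : ℤ, hh B t (Prod.swap x) (Prod.swap y) = hh B t x y + k := by
  obtain ⟨c, hc⟩ := h.ev
  have e1 := EXS_om h x.2 y.1
  have e2 := EXS_om h x.1 y.2
  have e3 := omega_swap x.2 y.1
  have e4 := omega_swap x.1 y.2
  refine ⟨omega y.1 (B x.2) + c * omega x.2 y.1 - (omega y.2 (B x.1) + c * omega x.1 y.2), ?_⟩
  simp only [hh, beta, Prod.fst_swap, Prod.snd_swap]
  rw [e1, e2, e3, e4, hc]
  push_cast
  ring

theorem EXS_ee (x : ℝ) (k : ℤ) : ee (x + k) = ee x := by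
  rw [ee_add, ee_int, mul_one]

theorem EXS_site (B : Lat 1 ≃ₗ[ℤ] Lat 1) (s j : ℕ) (x : PP) :
    siteI B s j (Prod.swap x) = Prod.swap (siteI B s j x) := rfl

theorem EXS_wt (x : PP) : wt (Prod.swap x) = wt x := by
  unfold wt
  have : Prod.swap x = 0 ↔ x = 0 := by
    constructor
    · intro hx
      rw [← Prod.swap_swap x, hx]
      rfl
    · intro hx
      rw [hx]
      rfl
  simp only [this]

theorem EXS_mem (b : Lat 1) (x : PP) : x ∈ blk b ↔ Prod.swap x ∈ blk b := by
  obtain ⟨p, q⟩ := x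
  simp only [blk, Finset.mem_insert, Finset.mem_singleton, Prod.swap,
    Prod.ext_iff, Prod.fst_zero, Prod.snd_zero]
  tauto

theorem EXS_step {B : Lat 1 ≃ₗ[ℤ] Lat 1} {t : ℤ} (h : Cat B t) (b : Lat 1) (s j : ℕ)
    (E : PP → ℂ) (hE : ∀ x, E (Prod.swap x) = E x) (z : PP) :
    stepE (hh B t) (siteI B s j) (blk b) GX E (Prod.swap z) =
      stepE (hh B t) (siteI B s j) (blk b) GX E z := by
  unfold stepE
  symm
  refine Finset.sum_equiv (Equiv.prodComm (Lat 1) (Lat 1)) (fun x => EXS_mem b x) ?_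
  intro x _
  refine Finset.sum_equiv (Equiv.prodComm (Lat 1) (Lat 1)) (fun x => EXS_mem b x) ?_
  intro y _
  simp only [Equiv.prodComm_apply]
  have h1 : GX (Prod.swap x) (Prod.swap y) = GX x y := by
    unfold GX
    rw [EXS_wt, EXS_wt]
  rw [h1, EXS_site, EXS_site]
  obtain ⟨k1, e1⟩ := EXS_hh h (siteI B s j x) z
  obtain ⟨k2, e2⟩ := EXS_hh h (siteI B s j y) z
  obtain ⟨k3, e3⟩ := EXS_hh h (siteI B s j x) (siteI B s j y)
  rw [e1, e2, e3]
  have h2 : -(hh B t (siteI B s j x) z + (k1 : ℝ)) - (hh B t (siteI B s j y) z + k2) -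
      (hh B t (siteI B s j x) (siteI B s j y) + k3) =
      (-(hh B t (siteI B s j x) z) - hh B t (siteI B s j y) z -
        hh B t (siteI B s j x) (siteI B s j y)) + ((-k1 - k2 - k3 : ℤ) : ℝ) := by
    push_cast
    ring
  rw [h2, EXS_ee]
  have h3 : Prod.swap z + Prod.swap (siteI B s j y) - Prod.swap (siteI B s j x) =
      Prod.swap (z + siteI B s j y - siteI B s j x) := rfl
  rw [h3, hE]

theorem EXS : EXS_stmt := by
  intro B t h b s J
  have key : ∀ J : ℕ, ∀ x : PP, EX0 B t b s J (Prod.swap x) = EX0 B t b s J x := by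
    intro J
    induction J with
    | zero =>
      intro x
      change E00 (Prod.swap x) = E00 x
      unfold E00
      have : Prod.swap x = 0 ↔ x = 0 := by
        constructor
        · intro hx
          rw [← Prod.swap_swap x, hx]
          rfl
        · intro hx
          rw [hx]
          rfl
      simp only [this]
    | succ j ih =>
      intro x
      exact EXS_step h b s j (EX0 B t b s j) ih x
  exact fun x => key J x

end

end Pool.Agent.QS
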